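import Pool.Agent.H8.Cor.Tight

set_option autoImplicit false

open Set Filter Topology

namespace Pool.Agent.H8.Cor

theorem exists_dns {X K : Type} [TopologicalSpace X] [TopologicalSpace K] [CompactSpace K]
    (hX : CorX X) {ℋ : Set (X × K → ℝ)} (hc : ℋ.Countable)
    (hne : ℋ.Nonempty) (hh : ∀ h ∈ ℋ, Continuous h) : ∃ D : Set K, D.Countable ∧
      ∀ k, ∃ k' ∈ closure D, ∀ h ∈ ℋ, ∀ x, h (x, k') = h (x, k) := by
  obtain ⟨h, rfl⟩ := hc.exists_eq_range hne
  obtain ⟨D, hD, hDk⟩ := exists_dense hX h (fun n => hh _ ⟨n, rfl⟩)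
  refine ⟨D, hD, fun k => ?_⟩
  obtain ⟨k', hk', heq⟩ := hDk k
  refine ⟨k', hk', ?_⟩
  rintro _ ⟨n, rfl⟩ x
  exact heq n x

theorem main (X : Type) [TopologicalSpace X] (hX : CorX X) (K : Type) [TopologicalSpace K]
    [CompactSpace K] : CorX (X × K) := by
  classical
  intro S hSc hS
  have hcS : CompactSpace S := isCompact_iff_compactSpace.1 hS
  -- the fibres
  have hfib : ∀ k : K, Continuous fun (f : X × K → ℝ) (x : X) => f (x, k) := fun k =>
    continuous_pi fun x => continuous_apply _
  choose Γ j hj hjs using fun k => hX ((fun (f : X × K → ℝ) (x : X) => f (x, k)) '' S) (by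
    rintro _ ⟨f, hf, rfl⟩
    exact (hSc f hf).comp (by fun_prop)) (hS.image (hfib k))
  let J : ∀ k, S → Γ k → ℝ := fun k f => j k ⟨fun x => f.1 (x, k), ⟨f.1, f.2, rfl⟩⟩
  have hJc : ∀ k, Continuous (J k) := fun k =>
    (hj k).continuous.comp (((hfib k).comp continuous_subtype_val).subtype_mk _)
  have hJs : ∀ k f, (Function.support (J k f)).Countable := fun k f => hjs k _
  have hJinj : ∀ k f g, J k f = J k g → ∀ x, f.1 (x, k) = g.1 (x, k) := by
    intro k f g h x
    exact congrFun (congrArg Subtype.val ((hj k).injective h)) x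
  have hJeq : ∀ k (f g : S), (∀ x, f.1 (x, k) = g.1 (x, k)) → J k f = J k g := by
    intro k f g h
    apply congrArg (j k)
    exact Subtype.ext (funext h)
  -- dense subsets of `K`
  have hCc0 : ∀ F : Finset S, ∃ D : Set K, D.Countable ∧
      ∀ k, ∃ k' ∈ closure D, ∀ h ∈ insert (fun _ => 0) (Subtype.val '' (F : Set S)),
        ∀ x, h (x, k') = h (x, k) := by
    intro F
    apply exists_dns hX ((F.countable_toSet.image _).insert _) (insert_nonempty _ _)
    rintro h (rfl | ⟨f, _, rfl⟩)
    · exact continuous_const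
    · exact hSc _ f.2
  choose Cc hCc hCcd using hCc0
  have hinj : ∀ (B : Set S) (C : Set K), (∀ F : Finset S, (F : Set S) ⊆ B → Cc F ⊆ C) →
      ∀ g ∈ closure B, ∀ g' ∈ closure B, (∀ k ∈ C, J k g = J k g') → g = g' := by
    intro B C hBC g hg g' hg' heq
    apply Subtype.ext
    funext ⟨x, k⟩
    have hne : (closure C ∩ ⋂ h : B, {k' | ∀ x, h.1.1 (x, k') = h.1.1 (x, k)}).Nonempty := by
      apply isClosed_closure.isCompact.inter_iInter_nonempty
      · intro h
        have : {k' | ∀ x, h.1.1 (x, k') = h.1.1 (x, k)} =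
            ⋂ x, {k' | h.1.1 (x, k') = h.1.1 (x, k)} := by
          ext k'
          simp
        rw [this]
        refine isClosed_iInter fun x => ?_
        exact isClosed_eq ((hSc _ h.1.2).comp (by fun_prop)) continuous_const
      · intro u
        obtain ⟨k', hk', hk''⟩ := hCcd (u.image Subtype.val) k
        refine ⟨k', closure_mono (hBC _ ?_) hk', mem_iInter₂.2 fun h hh x => ?_⟩
        · intro f hf
          rw [Finset.mem_coe, Finset.mem_image] at hf
          obtain ⟨f, _, rfl⟩ := hf
          exact f.2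
        · refine hk'' _ (Or.inr ⟨h.1, ?_, rfl⟩) x
          exact Finset.mem_coe.2 (Finset.mem_image_of_mem _ hh)
    obtain ⟨k', hk'C, hk'⟩ := hne
    rw [mem_iInter] at hk'
    have e1 : ∀ w ∈ closure B, w.1 (x, k') = w.1 (x, k) := by
      have hcl : IsClosed {w : S | w.1 (x, k') = w.1 (x, k)} :=
        isClosed_eq ((continuous_apply _).comp continuous_subtype_val)
          ((continuous_apply _).comp continuous_subtype_val)
      exact closure_minimal (fun w hw => hk' ⟨w, hw⟩ x) hcl
    have e2 : g.1 (x, k') = g'.1 (x, k') := by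
      have hcl : IsClosed {k | g.1 (x, k) = g'.1 (x, k)} :=
        isClosed_eq ((hSc _ g.2).comp (by fun_prop)) ((hSc _ g'.2).comp (by fun_prop))
      exact closure_minimal (fun k hk => hJinj k g g' (heq k hk) x) hcl hk'C
    rw [← e1 g hg, ← e1 g' hg', e2]
  -- countable sets determining coordinates
  have hs : ∀ k (γ : Γ k), ∃ s : Set X, s.Countable ∧
      ∀ f g : S, (∀ x ∈ s, f.1 (x, k) = g.1 (x, k)) → J k f γ = J k g γ := by
    intro k γ
    have hcont : Continuous fun p : S × S => |J k p.1 γ - J k p.2 γ| :=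
      continuous_abs.comp ((((continuous_apply γ).comp (hJc k)).comp continuous_fst).sub
        (((continuous_apply γ).comp (hJc k)).comp continuous_snd))
    have h1 : ∀ n : ℕ, ∃ t : Finset X, {p : S × S | 1 / ((n : ℝ) + 1) ≤ |J k p.1 γ - J k p.2 γ|} ⊆
        ⋃ x ∈ t, {p : S × S | p.1.1 (x, k) ≠ p.2.1 (x, k)} := by
      intro n
      apply IsCompact.elim_finite_subcover
      · exact (isClosed_le continuous_const hcont).isCompact
      · intro x
        exact isOpen_ne_fun ((continuous_apply _).comp (continuous_subtype_val.comp continuous_fst))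
          ((continuous_apply _).comp (continuous_subtype_val.comp continuous_snd))
      · intro p hp
        by_contra hcon
        rw [mem_iUnion] at hcon
        push Not at hcon
        have h2 : J k p.1 = J k p.2 := hJeq k _ _ fun x => by
          by_contra hne
          exact hcon x hne
        have hp' : 1 / ((n : ℝ) + 1) ≤ |J k p.1 γ - J k p.2 γ| := hp
        rw [h2, sub_self, abs_zero] at hp'
        have : (0 : ℝ) < 1 / ((n : ℝ) + 1) := by positivity
        linarith
    choose t ht using h1
    refine ⟨⋃ n, (t n : Set X), countable_iUnion fun n => (t n).countable_toSet, ?_⟩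
    intro f g hfg
    by_contra hne
    obtain ⟨n, hn⟩ := exists_nat_one_div_lt (abs_pos.2 (sub_ne_zero.2 hne))
    have h3 := ht n (show (f, g) ∈ {p : S × S | 1 / ((n : ℝ) + 1) ≤ |J k p.1 γ - J k p.2 γ|} from
      hn.le)
    obtain ⟨x, hx, hx'⟩ := mem_iUnion₂.1 h3
    exact hx' (hfg x (mem_iUnion.2 ⟨n, hx⟩))
  choose s hsc hs using hs
  -- countable dense sets over finite sets
  have hD : ∀ (F1 : Finset X) (F2 : Finset K), ∃ D : Set S, D.Countable ∧ ∀ (f : S) (n : ℕ),
      ∃ d ∈ D, ∀ x ∈ F1, ∀ k ∈ F2, |d.1 (x, k) - f.1 (x, k)| < 1 / ((n : ℝ) + 1) := by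
    intro F1 F2
    let ψ : S → ((F1 ×ˢ F2 : Finset (X × K)) → ℝ) := fun f q => f.1 q.1
    obtain ⟨D0, hD0c, hD0⟩ := TopologicalSpace.exists_countable_dense (range ψ)
    have hpre : ∀ y : range ψ, ∃ f, ψ f = y.1 := fun y => y.2
    choose pre hpre using hpre
    refine ⟨pre '' D0, hD0c.image _, fun f n => ?_⟩
    have hε : (0 : ℝ) < 1 / ((n : ℝ) + 1) := by positivity
    obtain ⟨y, hy, hyd⟩ := Metric.mem_closure_iff.1 (hD0 ⟨ψ f, mem_range_self f⟩) _ hε
    refine ⟨pre y, ⟨y, hy, rfl⟩, fun x hx k hk => ?_⟩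
    have h1 : dist (ψ f) (ψ (pre y)) < 1 / ((n : ℝ) + 1) := by
      rw [hpre y]
      exact hyd
    have h2 := (dist_le_pi_dist (ψ f) (ψ (pre y)) ⟨(x, k), Finset.mk_mem_product hx hk⟩).trans_lt h1
    rw [dist_comm, Real.dist_eq] at h2
    exact h2
  choose D hDc hD using hD
  -- the closure operation
  let Φ : Finset (S ⊕ (X ⊕ K)) → Set (S ⊕ (X ⊕ K)) := fun F =>
    (Sum.inr '' (Sum.inr '' Cc F.toLeft) ∪
      Sum.inr '' (Sum.inl '' (⋃ k ∈ F.toRight.toRight, ⋃ a ∈ F.toLeft,
        ⋃ γ ∈ Function.support (J k a), s k γ))) ∪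
      Sum.inl '' (D F.toRight.toLeft F.toRight.toRight)
  have hΦ : ∀ F, (Φ F).Countable := by
    intro F
    refine ((((hCc _).image _).image _).union (Countable.image (Countable.image ?_ _) _)).union
      ((hDc _ _).image _)
    refine Countable.biUnion (Finset.countable_toSet _) fun k _ => ?_
    refine Countable.biUnion (Finset.countable_toSet _) fun a _ => ?_
    exact (hJs k a).biUnion fun γ _ => hsc k γ
  obtain ⟨Γ', e, he, hi, hes⟩ := skel (L := S) (Z := S ⊕ (X ⊕ K)) (Q := X × K)
    (fun q f => f.1 q) (fun q => (continuous_apply q).comp continuous_subtype_val) Φ hΦ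
    Sum.inl (fun q => {Sum.inr (Sum.inl q.1), Sum.inr (Sum.inr q.2)}) (by
      -- countable sets
      intro G hG
      have h1 : {x : X | (Sum.inr (Sum.inl x) : S ⊕ (X ⊕ K)) ∈ G}.Countable :=
        hG.preimage (Sum.inr_injective.comp Sum.inl_injective)
      have h2 : {k : K | (Sum.inr (Sum.inr k) : S ⊕ (X ⊕ K)) ∈ G}.Countable :=
        hG.preimage (Sum.inr_injective.comp Sum.inr_injective)
      refine (h1.prod h2).mono ?_
      intro q hq
      exact ⟨hq (by simp), hq (by simp)⟩) (by
      -- injectivity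
      intro G hG g hg g' hg' heq
      refine hinj _ {k | (Sum.inr (Sum.inr k) : S ⊕ (X ⊕ K)) ∈ G} ?_ g hg g' hg' ?_
      · intro F hF k hk
        have h1 : ((F.map ⟨Sum.inl, Sum.inl_injective⟩ : Finset (S ⊕ (X ⊕ K))) : Set _) ⊆ G := by
          intro z hz
          rw [Finset.coe_map] at hz
          obtain ⟨g, hg, rfl⟩ := hz
          exact hF hg
        refine hG _ h1 (Or.inl (Or.inl ⟨_, ⟨k, ?_, rfl⟩, rfl⟩))
        have h2 : (F.map ⟨Sum.inl, Sum.inl_injective⟩ : Finset (S ⊕ (X ⊕ K))).toLeft = F := by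
          ext g
          simp
        rw [h2]
        exact hk
      · intro k hk
        funext γ
        by_cases hγ : ∃ a : S, (Sum.inl a : S ⊕ (X ⊕ K)) ∈ G ∧ γ ∈ Function.support (J k a)
        · obtain ⟨a, ha, haγ⟩ := hγ
          apply hs k γ
          intro x hx
          have h1 : (Sum.inr (Sum.inl x) : S ⊕ (X ⊕ K)) ∈ G := by
            have h2 : (({Sum.inl a, Sum.inr (Sum.inr k)} : Finset (S ⊕ (X ⊕ K))) : Set _) ⊆ G := by
              intro z hz
              rw [Finset.coe_pair] at hz
              rcases hz with rfl | rfl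
              · exact ha
              · exact hk
            refine hG _ h2 (Or.inl (Or.inr ⟨_, ⟨x, ?_, rfl⟩, rfl⟩))
            simp only [mem_iUnion]
            exact ⟨k, by simp, a, by simp, γ, haγ, hx⟩
          apply heq (x, k)
          intro z hz
          rw [Finset.coe_pair] at hz
          rcases hz with rfl | rfl
          · exact h1
          · exact hk
        · have h0 : ∀ w ∈ closure (Sum.inl ⁻¹' G : Set S), J k w γ = 0 := by
            have hcl : IsClosed {w : S | J k w γ = 0} :=
              isClosed_eq ((continuous_apply γ).comp (hJc k)) continuous_const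
            refine closure_minimal (fun a ha => ?_) hcl
            by_contra hne
            exact hγ ⟨a, ha, hne⟩
          rw [h0 g hg, h0 g' hg']) (by
      -- surjectivity
      intro G hG f
      let Q : Type := {q : X × K // (({Sum.inr (Sum.inl q.1), Sum.inr (Sum.inr q.2)} :
        Finset (S ⊕ (X ⊕ K))) : Set _) ⊆ G}
      let Ψ : S → (Q → ℝ) := fun g q => g.1 q.1
      have hΨ : Continuous Ψ := continuous_pi fun q =>
        (continuous_apply q.1).comp continuous_subtype_val
      have hcomp : IsCompact (Ψ '' closure (Sum.inl ⁻¹' G : Set S)) :=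
        isClosed_closure.isCompact.image hΨ
      have hmem : Ψ f ∈ closure (Ψ '' (Sum.inl ⁻¹' G : Set S)) := by
        apply mem_closure_pi
        intro I n
        obtain ⟨d, hd, hdI⟩ := hD (I.image fun q => q.1.1) (I.image fun q => q.1.2) f n
        refine ⟨Ψ d, ⟨d, ?_, rfl⟩, fun q hq => ?_⟩
        · let F : Finset (S ⊕ (X ⊕ K)) := (I.image fun q => Sum.inr (Sum.inl q.1.1)) ∪
            (I.image fun q => Sum.inr (Sum.inr q.1.2))
          have hF : (F : Set _) ⊆ G := by
            intro z hz
            rw [Finset.mem_coe, Finset.mem_union, Finset.mem_image, Finset.mem_image] at hz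
            rcases hz with ⟨q, _, rfl⟩ | ⟨q, _, rfl⟩
            · exact q.2 (by simp)
            · exact q.2 (by simp)
          refine hG F hF (Or.inr ⟨d, ?_, rfl⟩)
          have h1 : F.toRight.toLeft = I.image fun q => q.1.1 := by
            ext x
            simp [F]
          have h2 : F.toRight.toRight = I.image fun q => q.1.2 := by
            ext x
            simp [F]
          rw [h1, h2]
          exact hd
        · exact hdI _ (Finset.mem_image_of_mem _ hq) _ (Finset.mem_image_of_mem _ hq)
      obtain ⟨g, hg, hgf⟩ := closure_minimal (image_mono subset_closure) hcomp.isClosed hmem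
      exact ⟨g, hg, fun q hq => congrFun hgf ⟨q, hq⟩⟩)
    (tight J hJc hJs Cc hCc hinj)
  exact ⟨Γ', e, (he.isClosedEmbedding hi).isEmbedding, hes⟩

end Pool.Agent.H8.Cor
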